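import Mathlib
import Pool.Agent.H.MP_6c0529_co.B

namespace Pool.Agent.H.MP_ae7dce_co

open Finset SimpleGraph Pool.Agent.H.MP_8ae77a_co Pool.Agent.H.MP_6c0529_co

def D : List (List ℕ × List ℕ) := [
  ([0, 1], [2, 3, 4]), ([0, 1], [2, 3, 5]), ([0, 1], [2, 3, 6]), ([0, 1], [2, 4, 5]), ([0, 1],
  [2, 4, 6]), ([0, 1], [2, 5, 6]), ([0, 1], [3, 4, 5]), ([0, 1], [3, 4, 6]), ([0, 1], [3, 5, 6]),
  ([0, 1], [4, 5, 6]), ([0, 2], [3, 4, 5]), ([0, 2], [3, 4, 6]), ([0, 2], [3, 5, 6]), ([0, 2],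
  [4, 5, 6]), ([0, 3], [4, 5, 6]), ([1, 2], [3, 4, 5]), ([1, 2], [3, 4, 6]), ([1, 2], [3, 5, 6]),
  ([1, 2], [4, 5, 6]), ([1, 3], [4, 5, 6]), ([2, 3], [4, 5, 6]), ([0, 1, 2], [3, 4]), ([0, 1, 2],
  [3, 5]), ([0, 1, 2], [3, 6]), ([0, 1, 2], [4, 5]), ([0, 1, 2], [4, 6]), ([0, 1, 2], [5, 6]),
  ([0, 1, 3], [4, 5]), ([0, 1, 3], [4, 6]), ([0, 1, 3], [5, 6]), ([0, 1, 4], [5, 6]), ([0, 2, 3],
  [4, 5]), ([0, 2, 3], [4, 6]), ([0, 2, 3], [5, 6]), ([0, 2, 4], [5, 6]), ([0, 3, 4], [5, 6]),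
  ([1, 2, 3], [4, 5]), ([1, 2, 3], [4, 6]), ([1, 2, 3], [5, 6]), ([1, 2, 4], [5, 6]), ([1, 3, 4],
  [5, 6]), ([2, 3, 4], [5, 6])]

theorem d1 : (gen 7 (List.ofFn rk)).all (fun r => D.any (ok r)) = true := by decide +kernel

theorem d2 : ∀ x ∈ D, sp (List.ofFn rk) x.1 x.2 = true := by decide +kernel

def fs (A : List ℕ) : Finset (Fin 7) := {i | i.1 ∈ A}

theorem d3 : ∀ x ∈ D, 1 < (fs x.1).card ∧ 1 < (fs x.2).card ∧ Disjoint (fs x.1) (fs x.2) ∧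
    (fs x.1 ∪ fs x.2).card = 5 := by decide +kernel

theorem lower (σ τ : Equiv.Perm (Fin 7)) : ∃ A B : Finset (Fin 7), 1 < A.card ∧ 1 < B.card ∧
    Disjoint A B ∧ (A ∪ B).card = 5 ∧ (∀ a ∈ A, ∀ b ∈ B, rk (σ a) < rk (σ b)) ∧
      ((∀ a ∈ A, ∀ b ∈ B, rk (τ a) < rk (τ b)) ∨ (∀ a ∈ B, ∀ b ∈ A, rk (τ a) < rk (τ b))) := by
  let f (A : List ℕ) : Finset (Fin 7) := (fs A).map σ.symm.toEmbedding
  have hf (A a) : a ∈ f A ↔ (σ a).1 ∈ A := by simp [f, fs, mem_map_equiv]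
  let r := List.ofFn (rk ∘ (σ.symm.trans τ))
  have k (F : Fin 7 → ℕ) (A B) (q : sp (List.ofFn F) A B = true) :
      ∀ a ∈ f A, ∀ b ∈ f B, F (σ a) < F (σ b) := fun a ha b hb => by
    simpa only [gd, decide_eq_true_eq] using
      List.all_eq_true.1 (List.all_eq_true.1 q _ ((hf _ _).1 ha)) _ ((hf _ _).1 hb)
  obtain ⟨x, p, q⟩ := List.any_eq_true.1 (List.all_eq_true.1 d1 r
    (by simpa only [List.length_ofFn] using mem_gen _ _ (Equiv.Perm.ofFn_comp_perm (σ.symm.trans τ) rk)))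
  obtain ⟨e1, e2, e3, e4⟩ := d3 x p
  refine ⟨f x.1, f x.2, by simpa [f] using e1, by simpa [f] using e2,
    (disjoint_map _).2 e3, by rw [← e4]; simp only [f, ← map_union, card_map],
    k _ _ _ (d2 x p), (Bool.or_eq_true_iff.1 q).imp
    (fun q => by simpa using k _ _ _ q) fun q => by simpa using k _ _ _ q⟩

theorem memW (P : Setoid (Fin 7)) (h : ∀ x ∈ Sp, ∀ a b c d : Fin 7,
    a.1 ∈ x.1 → b.1 ∈ x.2 → c.1 ∈ x.1 → d.1 ∈ x.2 → P a b → P c d → P a c) :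
    ∃ f ∈ W, (Setoid.ker fun i : Fin 7 => f.getD i 0) = P := by
  classical
  have (i : Fin 7) : ∃ x, P i x ∧ ∀ j, P i j → x ≤ j :=
    Set.exists_min_image {j | P i j} id (Set.toFinite _) ⟨i, P.refl' i⟩
  choose f f1 f2 using this
  have e (i j) : (f i).1 = (f j).1 ↔ P i j := Fin.val_inj.trans
    ⟨fun q => P.trans' (f1 i) (q ▸ P.symm' (f1 j)), fun q =>
      (f2 i _ (P.trans' q (f1 j))).antisymm (f2 j _ (P.trans' (P.symm' q) (f1 i)))⟩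
  refine ⟨List.ofFn fun i => (f i).1,
    List.mem_filter.2 ⟨List.mem_sections.2 ?_, Bool.and_eq_true_iff.2 ⟨?_, ?_⟩⟩,
      Setoid.ext fun i j => by rw [Setoid.ker_def, gd, gd, e]⟩
  · have q (i : Fin 7) : (f i).1 ∈ List.range (i + 1) :=
      List.mem_range.2 (Nat.lt_succ_of_le (f2 i i (P.refl' i)))
    exact .cons (q 0) (.cons (q 1) (.cons (q 2) (.cons (q 3) (.cons (q 4) (.cons (q 5)
      (.cons (q 6) .nil))))))
  · refine List.all_eq_true.2 fun a ha => ?_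
    obtain ⟨i, rfl⟩ := List.mem_ofFn.1 ha
    exact beq_iff_eq.2 ((gd _ _).trans ((e _ _).2 (P.symm' (f1 i))))
  have b : ∀ x ∈ Sp, (∀ a ∈ x.1, a < 7) ∧ ∀ a ∈ x.2, a < 7 := by decide
  refine List.all_eq_true.2 fun x hx => List.all_eq_true.2 fun a ha => List.all_eq_true.2 fun c hc => ?_
  by_contra z
  simp only [Bool.or_eq_true, Bool.not_eq_true', beq_iff_eq, not_or, Bool.not_eq_false,
    List.any_eq_true] at z
  obtain ⟨⟨⟨u, hu, p⟩, v, hv, q⟩, z⟩ := z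
  lift a to Fin 7 using (b x hx).1 a ha
  lift c to Fin 7 using (b x hx).1 c hc
  lift u to Fin 7 using (b x hx).2 u hu
  lift v to Fin 7 using (b x hx).2 v hv
  rw [gd, gd, e] at p q z
  exact z (h x hx _ _ _ _ ha hu hc hv p q)

def W4 : List (List ℕ) := W.filter fun f => (univ.image fun i : Fin 7 => f.getD i 0).card = 4

theorem d5 : W4.length = 35 := by decide +kernel

theorem upper (S : Set (Setoid (Fin 7))) (h : ∀ P ∈ S, ∀ x ∈ Sp, ∀ a b c d : Fin 7,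
    a.1 ∈ x.1 → b.1 ∈ x.2 → c.1 ∈ x.1 → d.1 ∈ x.2 → P a b → P c d → P a c)
    (h4 : ∀ P ∈ S, Nat.card (Quotient P) = 4) : S.ncard ≤ 35 := by
  classical
  refine (Set.ncard_le_ncard (t := (W4.map fun f => Setoid.ker fun i : Fin 7 => f.getD i 0).toFinset)
    (fun P hP => ?_) (Finset.finite_toSet _)).trans (by
      rw [Set.ncard_coe_finset, ← d5, ← List.length_map]; exact List.toFinset_card_le _)
  obtain ⟨f, hf, rfl⟩ := memW P (h P hP)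
  refine List.mem_toFinset.2 (List.mem_map.2 ⟨f, List.mem_filter.2 ⟨hf, decide_eq_true ?_⟩, rfl⟩)
  rw [← h4 _ hP, Nat.card_congr (Setoid.quotientKerEquivRange _), Nat.card_coe_set_eq,
    ← Set.ncard_coe_finset, coe_image, coe_univ, Set.image_univ]

end Pool.Agent.H.MP_ae7dce_co
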